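import Mathlib

set_option autoImplicit false

/-! # A sequence of bumps accumulating at `0` -/

namespace Pool.Agent.V1197.PS

open Filter Topology
open scoped ContDiff

/-- centres of the bumps -/
noncomputable def p (j : ℕ) : ℝ := (1 / 2) ^ (j + 1)

theorem p_pos (j : ℕ) : 0 < p j := by unfold p; positivity

theorem p_le (j : ℕ) : p j ≤ 1 := pow_le_one₀ (by norm_num) (by norm_num)

theorem p_anti {i j : ℕ} (h : i ≤ j) : p j ≤ p i :=
  pow_le_pow_of_le_one (by norm_num) (by norm_num) (by omega)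

theorem p_succ (j : ℕ) : p (j + 1) = p j / 2 := by
  unfold p
  rw [pow_succ]
  ring

theorem p_lt {i j : ℕ} (h : i < j) : p j ≤ p i / 2 := by
  rw [← p_succ]
  exact p_anti h

theorem tendsto_p : Tendsto p atTop (𝓝 0) := by
  have h := tendsto_pow_atTop_nhds_zero_of_lt_one (show (0 : ℝ) ≤ 1 / 2 by norm_num) (by norm_num)
  exact (tendsto_add_atTop_iff_nat 1).2 h

/-- the bump data -/
noncomputable def bp (j : ℕ) : ContDiffBump (p j) where
  rIn := p j / 8
  rOut := p j / 4
  rIn_pos := by have := p_pos j; positivity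
  rIn_lt_rOut := by have := p_pos j; linarith

/-- the bumps -/
noncomputable def be (j : ℕ) (x : ℝ) : ℝ := bp j x

theorem contDiff_be (j : ℕ) : ContDiff ℝ ∞ (be j) := (bp j).contDiff

theorem be_nonneg (j : ℕ) (x : ℝ) : 0 ≤ be j x := (bp j).nonneg

theorem be_le_one (j : ℕ) (x : ℝ) : be j x ≤ 1 := (bp j).le_one

theorem be_zero_of_dist {j : ℕ} {x : ℝ} (h : p j / 4 ≤ |x - p j|) : be j x = 0 := by
  refine (bp j).zero_of_le_dist ?_
  rw [Real.dist_eq]
  exact h

theorem be_zero_left {j : ℕ} {x : ℝ} (h : x ≤ 3 / 4 * p j) : be j x = 0 := by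
  refine be_zero_of_dist ?_
  have := neg_le_abs (x - p j)
  linarith

theorem be_zero_right {j : ℕ} {x : ℝ} (h : 5 / 4 * p j ≤ x) : be j x = 0 := by
  refine be_zero_of_dist ?_
  have := le_abs_self (x - p j)
  linarith

theorem be_self (j : ℕ) : be j (p j) = 1 := by
  refine (bp j).one_of_mem_closedBall ?_
  rw [Metric.mem_closedBall, dist_self]
  have := p_pos j
  change 0 ≤ p j / 8
  positivity

theorem be_ne {i j : ℕ} (h : i ≠ j) : be j (p i) = 0 := by
  rcases lt_or_gt_of_ne h with h | h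
  · have := p_lt h
    have := p_pos i
    exact be_zero_right (by linarith)
  · have := p_lt h
    have := p_pos j
    exact be_zero_left (by linarith)

theorem exists_J {x : ℝ} (hx : 0 < x) : ∃ J : ℕ, ∀ y, x / 2 < y → ∀ j, J ≤ j → be j y = 0 := by
  have h := tendsto_p.eventually_lt_const (show 0 < x / 4 by positivity)
  obtain ⟨J, hJ⟩ := eventually_atTop.1 h
  refine ⟨J, fun y hy j hj => be_zero_right ?_⟩
  have := hJ j hj
  linarith

theorem exists_K : ∃ K : ℕ → ℕ → ℝ, ∀ j m, ∀ x ∈ Set.Icc (0 : ℝ) 1,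
    |iteratedDeriv m (be j) x| ≤ K j m := by
  have h : ∀ j m : ℕ, ∃ C : ℝ, ∀ x ∈ Set.Icc (0 : ℝ) 1, |iteratedDeriv m (be j) x| ≤ C := by
    intro j m
    have hc : Continuous (iteratedDeriv m (be j)) :=
      (contDiff_be j).continuous_iteratedDeriv m (by exact_mod_cast le_top)
    exact isCompact_Icc.exists_bound_of_continuousOn hc.continuousOn
  choose K hK using h
  exact ⟨K, hK⟩

section

variable {F : Type*} [NormedAddCommGroup F] [NormedSpace ℝ F]

/-- the sum of the bumps -/
noncomputable def bs (d : ℕ → F) (x : ℝ) : F := ∑' j, be j x • d j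

theorem bs_eq (d : ℕ → F) {x : ℝ} {J : ℕ} (h : ∀ j, J ≤ j → be j x = 0) :
    bs d x = ∑ j ∈ Finset.range J, be j x • d j := by
  refine tsum_eq_sum fun j hj => ?_
  rw [Finset.mem_range, not_lt] at hj
  rw [h j hj, zero_smul]

theorem exists_J' (x : ℝ) : ∃ J : ℕ, ∀ j, J ≤ j → be j x = 0 := by
  rcases le_or_gt x 0 with hx | hx
  · refine ⟨0, fun j _ => be_zero_left ?_⟩
    have := p_pos j
    linarith
  · obtain ⟨J, hJ⟩ := exists_J hx
    exact ⟨J, fun j hj => hJ x (by linarith) j hj⟩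

theorem bs_p (d : ℕ → F) (i : ℕ) : bs d (p i) = d i := by
  unfold bs
  rw [tsum_eq_single i]
  · rw [be_self, one_smul]
  · intro j hj
    rw [be_ne (Ne.symm hj), zero_smul]

theorem bs_gap (d : ℕ → F) (i : ℕ) {y : ℝ} (h1 : 5 / 8 * p i < y) (h2 : y < 3 / 4 * p i) :
    bs d y = 0 := by
  unfold bs
  have : ∀ j, be j y • d j = 0 := by
    intro j
    rcases le_or_gt j i with h | h
    · have := p_anti h
      rw [be_zero_left (by linarith), zero_smul]
    · have := p_lt h
      rw [be_zero_right (by linarith), zero_smul]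
  simp [this]

theorem bump_bound {K : ℕ → ℕ → ℝ} (hK : ∀ j m, ∀ x ∈ Set.Icc (0 : ℝ) 1,
    |iteratedDeriv m (be j) x| ≤ K j m) {x : ℝ} (hx : x ∈ Set.Icc (0 : ℝ) 1) :
    ∃ J : ℕ, ∀ (d : ℕ → F) (M : ℝ), (∀ j, ‖d j‖ ≤ M) → ∀ b : ℝ → F,
      ContDiffOn ℝ ∞ b (Set.Icc 0 1) → (∀ y ∈ Set.Icc (0 : ℝ) 1, b y = bs d y) → ∀ m : ℕ,
      ‖iteratedDerivWithin m b (Set.Icc 0 1) x‖ ≤ M * ∑ j ∈ Finset.range J, K j m := by
  rcases eq_or_lt_of_le hx.1 with h0 | h0
  · -- the point `0`
    subst h0
    refine ⟨0, fun d M _ b hb hbd m => ?_⟩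
    rw [Finset.range_zero, Finset.sum_empty, mul_zero]
    have hcont : ContinuousOn (iteratedDerivWithin m b (Set.Icc 0 1)) (Set.Icc 0 1) :=
      hb.continuousOn_iteratedDerivWithin (by exact_mod_cast le_top) (uniqueDiffOn_Icc zero_lt_one)
    have hc0 : ContinuousWithinAt (iteratedDerivWithin m b (Set.Icc 0 1)) (Set.Icc 0 1) 0 :=
      hcont 0 hx
    set y : ℕ → ℝ := fun i => 11 / 16 * p i with hy
    have hyI : ∀ i, y i ∈ Set.Icc (0 : ℝ) 1 := by
      intro i
      have h1 := p_pos i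
      have h2 := p_le i
      constructor
      · simp only [hy]; positivity
      · simp only [hy]; linarith
    have hy0 : Tendsto y atTop (𝓝 0) := by
      have := tendsto_p.const_mul (11 / 16)
      simpa using this
    have hyt : Tendsto y atTop (𝓝[Set.Icc 0 1] 0) :=
      tendsto_nhdsWithin_iff.2 ⟨hy0, Eventually.of_forall hyI⟩
    have hlim := hc0.tendsto.comp hyt
    have hzero : ∀ i, iteratedDerivWithin m b (Set.Icc 0 1) (y i) = 0 := by
      intro i
      have hpi := p_pos i
      have hev : b =ᶠ[𝓝[Set.Icc 0 1] (y i)] fun _ => (0 : F) := by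
        have h1 : Set.Ioo (5 / 8 * p i) (3 / 4 * p i) ∈ 𝓝 (y i) := by
          refine Ioo_mem_nhds ?_ ?_ <;> simp only [hy] <;> linarith
        filter_upwards [mem_nhdsWithin_of_mem_nhds h1, self_mem_nhdsWithin] with z hz1 hz2
        rw [hbd z hz2]
        exact bs_gap d i hz1.1 hz1.2
      have h2 := hev.iteratedDerivWithin_eq (n := m) (hev.self_of_nhdsWithin (hyI i))
      rw [h2, iteratedDerivWithin_fun_const_zero]
    have hlim2 : Tendsto (fun i => iteratedDerivWithin m b (Set.Icc 0 1) (y i)) atTop (𝓝 0) := by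
      simp only [hzero]
      exact tendsto_const_nhds
    have := tendsto_nhds_unique hlim hlim2
    rw [this, norm_zero]
  · obtain ⟨J, hJ⟩ := exists_J h0
    refine ⟨J, fun d M hd b hb hbd m => ?_⟩
    set s : ℝ → F := fun y => ∑ j ∈ Finset.range J, be j y • d j with hs
    have hev : b =ᶠ[𝓝[Set.Icc 0 1] x] s := by
      have h1 : Set.Ioi (x / 2) ∈ 𝓝 x := Ioi_mem_nhds (by linarith)
      filter_upwards [mem_nhdsWithin_of_mem_nhds h1, self_mem_nhdsWithin] with z hz1 hz2
      rw [hbd z hz2]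
      exact bs_eq d (hJ z hz1)
    have hsc : ContDiff ℝ ∞ s := ContDiff.sum fun j _ => (contDiff_be j).smul contDiff_const
    have h2 := hev.iteratedDerivWithin_eq (n := m) (hev.self_of_nhdsWithin hx)
    have h3 : iteratedDerivWithin m s (Set.Icc 0 1) x = iteratedDeriv m s x :=
      iteratedDerivWithin_eq_iteratedDeriv (uniqueDiffOn_Icc zero_lt_one)
        (hsc.of_le (by exact_mod_cast le_top)).contDiffAt hx
    have h4 : iteratedDeriv m s x = ∑ j ∈ Finset.range J, iteratedDeriv m (be j) x • d j := by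
      have h5 : iteratedDeriv m s x
          = ∑ j ∈ Finset.range J, iteratedDeriv m (fun y => be j y • d j) x := by
        rw [hs]
        refine iteratedDeriv_fun_sum fun j _ => ?_
        exact (((contDiff_be j).smul contDiff_const).of_le (by exact_mod_cast le_top)).contDiffAt
      rw [h5]
      refine Finset.sum_congr rfl fun j _ => ?_
      exact iteratedDeriv_smul_const ((contDiff_be j).of_le (by exact_mod_cast le_top)).contDiffAt _
    rw [h2, h3, h4, Finset.mul_sum]
    refine (norm_sum_le _ _).trans (Finset.sum_le_sum fun j _ => ?_)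
    rw [norm_smul, Real.norm_eq_abs, mul_comm M]
    exact mul_le_mul (hK j m x hx) (hd j) (norm_nonneg _) ((abs_nonneg _).trans (hK j m x hx))

end

end Pool.Agent.V1197.PS
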