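import Mathlib

set_option autoImplicit false

/-! # Lacunary cosine series with prescribed large derivatives -/

namespace Pool.Agent.V1197.PS

open Filter Topology
open scoped ContDiff

/-- the frequencies -/
noncomputable def L (B : ℕ → ℝ) : ℕ → ℝ
  | 0 => 1 + 4 * (1 + |B 0|)
  | n + 1 => L B n + 2 ^ (n + 3) * ((n + 2) * ((n + 1) * (L B n) ^ (2 * n + 4) + 1 + |B (n + 1)|))

theorem one_le_L (B : ℕ → ℝ) (n : ℕ) : 1 ≤ L B n := by
  induction n with
  | zero =>
    rw [L]
    have := abs_nonneg (B 0)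
    linarith
  | succ n ih =>
    rw [L]
    have h0 : 0 ≤ L B n := le_trans zero_le_one ih
    have : 0 ≤ (2 : ℝ) ^ (n + 3) * ((n + 2) * ((n + 1) * (L B n) ^ (2 * n + 4) + 1 + |B (n + 1)|)) := by
      positivity
    linarith

theorem L_mono (B : ℕ → ℝ) : Monotone (L B) := by
  refine monotone_nat_of_le_succ fun n => ?_
  rw [L]
  have h0 : 0 ≤ L B n := le_trans zero_le_one (one_le_L B n)
  have : 0 ≤ (2 : ℝ) ^ (n + 3) * ((n + 2) * ((n + 1) * (L B n) ^ (2 * n + 4) + 1 + |B (n + 1)|)) := by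
    positivity
  linarith

/-- the coefficients -/
noncomputable def A (B : ℕ → ℝ) (n : ℕ) : ℝ := (1 / 2) ^ (n + 2) / (L B n) ^ (2 * n)

theorem A_pos (B : ℕ → ℝ) (n : ℕ) : 0 < A B n := by
  have := lt_of_lt_of_le zero_lt_one (one_le_L B n)
  unfold A
  positivity

theorem A_mul_le (B : ℕ → ℝ) {n m : ℕ} (h : m ≤ 2 * n) :
    A B n * (L B n) ^ m ≤ (1 / 2) ^ (n + 2) := by
  have h1 := one_le_L B n
  have h0 := lt_of_lt_of_le zero_lt_one h1
  unfold A
  rw [div_mul_eq_mul_div, div_le_iff₀ (by positivity)]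
  have : (L B n) ^ m ≤ (L B n) ^ (2 * n) := pow_le_pow_right₀ h1 h
  exact mul_le_mul_of_nonneg_left this (by positivity)

theorem A_le_one (B : ℕ → ℝ) (n : ℕ) : A B n ≤ 1 := by
  have h := A_mul_le B (Nat.zero_le (2 * n))
  rw [pow_zero, mul_one] at h
  refine h.trans ?_
  exact pow_le_one₀ (by norm_num) (by norm_num)

/-- the sum of the earlier terms -/
noncomputable def P (B : ℕ → ℝ) (n : ℕ) : ℝ := ∑ i ∈ Finset.range n, A B i * (L B i) ^ (2 * n + 2)

theorem P_nonneg (B : ℕ → ℝ) (n : ℕ) : 0 ≤ P B n := by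
  refine Finset.sum_nonneg fun i _ => ?_
  have := A_pos B i
  have := one_le_L B i
  positivity

theorem P_succ_le (B : ℕ → ℝ) (n : ℕ) : P B (n + 1) ≤ (n + 1) * (L B n) ^ (2 * n + 4) := by
  have h : ∀ i ∈ Finset.range (n + 1), A B i * (L B i) ^ (2 * (n + 1) + 2) ≤ (L B n) ^ (2 * n + 4) := by
    intro i hi
    have hi' : i ≤ n := Nat.lt_succ_iff.1 (Finset.mem_range.1 hi)
    have h1 := A_le_one B i
    have h2 := L_mono B hi'
    have h3 := one_le_L B i
    have h4 : (L B i) ^ (2 * (n + 1) + 2) ≤ (L B n) ^ (2 * n + 4) := by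
      have : 2 * (n + 1) + 2 = 2 * n + 4 := by ring
      rw [this]
      exact pow_le_pow_left₀ (by linarith) h2 _
    calc A B i * (L B i) ^ (2 * (n + 1) + 2) ≤ 1 * (L B n) ^ (2 * n + 4) :=
          mul_le_mul h1 h4 (by positivity) zero_le_one
      _ = _ := one_mul _
  have := Finset.sum_le_card_nsmul _ _ _ h
  rw [Finset.card_range, nsmul_eq_mul] at this
  unfold P
  push_cast at this
  exact this

theorem L_large (B : ℕ → ℝ) (n : ℕ) :
    ((n : ℝ) + 1) * (P B n + 1 + |B n|) ≤ (1 / 2) ^ (n + 2) * L B n := by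
  rcases n with _ | n
  · have : P B 0 = 0 := by simp [P]
    rw [this, L]
    norm_num
    have := abs_nonneg (B 0)
    linarith
  · have h1 := P_succ_le B n
    have h0 : 0 ≤ L B n := le_trans zero_le_one (one_le_L B n)
    rw [L]
    have h2 : (1 / 2 : ℝ) ^ (n + 1 + 2) * (L B n + 2 ^ (n + 3) * ((n + 2) * ((n + 1) * (L B n) ^ (2 * n + 4) + 1 + |B (n + 1)|)))
        = (1 / 2 : ℝ) ^ (n + 3) * L B n + (n + 2) * ((n + 1) * (L B n) ^ (2 * n + 4) + 1 + |B (n + 1)|) := by
      have : (1 / 2 : ℝ) ^ (n + 3) * 2 ^ (n + 3) = 1 := by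
        rw [← mul_pow]; norm_num
      have h3 : n + 1 + 2 = n + 3 := by ring
      rw [h3, mul_add, ← mul_assoc, this, one_mul]
    rw [h2]
    have h4 : 0 ≤ (1 / 2 : ℝ) ^ (n + 3) * L B n := by positivity
    push_cast
    have h5 : ((n : ℝ) + 1 + 1) * (P B (n + 1) + 1 + |B (n + 1)|)
        ≤ (n + 2) * ((n + 1) * (L B n) ^ (2 * n + 4) + 1 + |B (n + 1)|) := by
      have : (n : ℝ) + 1 + 1 = n + 2 := by ring
      rw [this]
      refine mul_le_mul_of_nonneg_left ?_ (by positivity)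
      linarith
    linarith

theorem A_mul_ge (B : ℕ → ℝ) {n m : ℕ} (h : 2 * n + 1 ≤ m) :
    ((n : ℝ) + 1) * (P B n + 1 + |B n|) ≤ A B n * (L B n) ^ m := by
  refine (L_large B n).trans ?_
  have h1 := one_le_L B n
  have h0 := lt_of_lt_of_le zero_lt_one h1
  unfold A
  rw [div_mul_eq_mul_div, le_div_iff₀ (by positivity), mul_assoc]
  refine mul_le_mul_of_nonneg_left ?_ (by positivity)
  calc L B n * (L B n) ^ (2 * n) = (L B n) ^ (2 * n + 1) := by rw [pow_succ, mul_comm]
    _ ≤ (L B n) ^ m := pow_le_pow_right₀ h1 h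

theorem summable_half : Summable fun n : ℕ => (1 / 2 : ℝ) ^ (n + 2) := by
  have h := (summable_geometric_of_lt_one (show (0 : ℝ) ≤ 1 / 2 by norm_num) (by norm_num))
  exact (summable_nat_add_iff 2).2 h

theorem tsum_half : ∑' n : ℕ, (1 / 2 : ℝ) ^ (n + 2) = 1 / 2 := by
  have h : ∀ n : ℕ, (1 / 2 : ℝ) ^ (n + 2) = (1 / 4) * (1 / 2) ^ n := by
    intro n
    rw [pow_add]
    ring
  simp_rw [h]
  rw [tsum_mul_left, tsum_geometric_of_lt_one (by norm_num) (by norm_num)]
  norm_num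

theorem summable_A (B : ℕ → ℝ) (m : ℕ) : Summable fun n => A B n * (L B n) ^ m := by
  rw [← summable_nat_add_iff m]
  refine Summable.of_nonneg_of_le (fun n => ?_) (fun n => ?_)
    ((summable_nat_add_iff m).2 summable_half)
  · have := A_pos B (n + m)
    have := one_le_L B (n + m)
    positivity
  · exact A_mul_le B (by omega)

section series

variable {F : Type*} [NormedAddCommGroup F] [NormedSpace ℝ F] [CompleteSpace F]

/-- the `m`-th derivative of the `n`-th term -/
noncomputable def G (B : ℕ → ℝ) (v : ℕ → F) (m n : ℕ) (x : ℝ) : F :=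
  (A B n * (L B n) ^ m * Real.cos (L B n * x + m * (Real.pi / 2))) • v n

theorem hasDerivAt_G (B : ℕ → ℝ) (v : ℕ → F) (m n : ℕ) (x : ℝ) :
    HasDerivAt (G B v m n) (G B v (m + 1) n x) x := by
  unfold G
  have h1 : HasDerivAt (fun y : ℝ => L B n * y + m * (Real.pi / 2)) (L B n) x := by
    simpa using ((hasDerivAt_id x).const_mul (L B n)).add_const (m * (Real.pi / 2))
  have h2 := h1.cos.const_mul (A B n * (L B n) ^ m)
  have h3 := h2.smul_const (v n)
  convert h3 using 1
  congr 1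
  have h4 : L B n * x + ((m + 1 : ℕ) : ℝ) * (Real.pi / 2)
      = (L B n * x + m * (Real.pi / 2)) + Real.pi / 2 := by push_cast; ring
  rw [h4, Real.cos_add_pi_div_two, pow_succ]
  ring

theorem norm_G_le (B : ℕ → ℝ) {v : ℕ → F} {M : ℝ} (hv : ∀ n, ‖v n‖ ≤ M) (m n : ℕ) (x : ℝ) :
    ‖G B v m n x‖ ≤ A B n * (L B n) ^ m * M := by
  have hA := A_pos B n
  have hL := one_le_L B n
  unfold G
  rw [norm_smul, Real.norm_eq_abs, abs_mul, abs_of_nonneg (show 0 ≤ A B n * (L B n) ^ m by positivity)]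
  have h1 := Real.abs_cos_le_one (L B n * x + m * (Real.pi / 2))
  have h2 : A B n * (L B n) ^ m * |Real.cos (L B n * x + m * (Real.pi / 2))|
      ≤ A B n * (L B n) ^ m := mul_le_of_le_one_right (by positivity) h1
  exact mul_le_mul h2 (hv n) (norm_nonneg _) (by positivity)

/-- the sum of the series of `m`-th derivatives -/
noncomputable def H (B : ℕ → ℝ) (v : ℕ → F) (m : ℕ) (x : ℝ) : F := ∑' n, G B v m n x

theorem summable_G (B : ℕ → ℝ) {v : ℕ → F} {M : ℝ} (hv : ∀ n, ‖v n‖ ≤ M) (m : ℕ) (x : ℝ) :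
    Summable fun n => G B v m n x :=
  Summable.of_norm_bounded ((summable_A B m).mul_right M) fun n => norm_G_le B hv m n x

theorem hasDerivAt_H (B : ℕ → ℝ) {v : ℕ → F} {M : ℝ} (hv : ∀ n, ‖v n‖ ≤ M) (m : ℕ) (x : ℝ) :
    HasDerivAt (H B v m) (H B v (m + 1) x) x :=
  hasDerivAt_tsum ((summable_A B (m + 1)).mul_right M) (fun n y => hasDerivAt_G B v m n y)
    (fun n y => norm_G_le B hv (m + 1) n y) (summable_G B hv m 0) x

theorem iteratedDeriv_H (B : ℕ → ℝ) {v : ℕ → F} {M : ℝ} (hv : ∀ n, ‖v n‖ ≤ M) (m : ℕ) :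
    iteratedDeriv m (H B v 0) = H B v m := by
  induction m with
  | zero => rw [iteratedDeriv_zero]
  | succ m ih =>
    rw [iteratedDeriv_succ, ih]
    funext x
    exact (hasDerivAt_H B hv m x).deriv

theorem contDiff_H (B : ℕ → ℝ) {v : ℕ → F} {M : ℝ} (hv : ∀ n, ‖v n‖ ≤ M) :
    ContDiff ℝ ∞ (H B v 0) := by
  refine contDiff_of_differentiable_iteratedDeriv fun m _ => ?_
  rw [iteratedDeriv_H B hv]
  exact fun x => (hasDerivAt_H B hv m x).differentiableAt

theorem norm_H_zero_le (B : ℕ → ℝ) {v : ℕ → F} {M : ℝ} (hv : ∀ n, ‖v n‖ ≤ M) (x : ℝ) :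
    ‖H B v 0 x‖ ≤ M / 2 := by
  have h1 : Summable fun n => (1 / 2 : ℝ) ^ (n + 2) * M := summable_half.mul_right M
  have hM : 0 ≤ M := (norm_nonneg _).trans (hv 0)
  have h2 : ∀ n, ‖G B v 0 n x‖ ≤ (1 / 2 : ℝ) ^ (n + 2) * M := by
    intro n
    refine (norm_G_le B hv 0 n x).trans ?_
    exact mul_le_mul_of_nonneg_right (A_mul_le B (Nat.zero_le _)) hM
  have h3 := tsum_of_norm_bounded h1.hasSum h2
  rw [tsum_mul_right, tsum_half] at h3
  unfold H
  linarith

/-- The lower bound for the derivatives of the series. -/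
theorem exists_large (B : ℕ → ℝ) {v : ℕ → F} {M : ℝ} (hv : ∀ n, ‖v n‖ ≤ M) (n : ℕ) (x : ℝ) :
    ∃ m, 2 * n + 1 ≤ m ∧ m ≤ 2 * n + 2 ∧
      ‖v n‖ / 2 * (((n : ℝ) + 1) * (P B n + 1 + |B n|)) - M * (P B n + 1) ≤ ‖H B v m x‖ := by
  have hM : 0 ≤ M := (norm_nonneg _).trans (hv 0)
  -- choice of `m`
  obtain ⟨m, hm1, hm2, hcos⟩ : ∃ m : ℕ, 2 * n + 1 ≤ m ∧ m ≤ 2 * n + 2 ∧
      1 / 2 ≤ |Real.cos (L B n * x + m * (Real.pi / 2))| := by
    by_contra hcon
    push Not at hcon
    have h1 := hcon (2 * n + 1) le_rfl (by omega)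
    have h2 := hcon (2 * n + 2) (by omega) le_rfl
    set t := L B n * x + ((2 * n + 1 : ℕ) : ℝ) * (Real.pi / 2) with ht
    have h3 : L B n * x + ((2 * n + 2 : ℕ) : ℝ) * (Real.pi / 2) = t + Real.pi / 2 := by
      rw [ht]; push_cast; ring
    rw [h3, Real.cos_add_pi_div_two, abs_neg] at h2
    have h4 := Real.sin_sq_add_cos_sq t
    have h5 : Real.sin t ^ 2 < (1 / 2) ^ 2 := by
      rw [← sq_abs]
      exact pow_lt_pow_left₀ h2 (abs_nonneg _) (by norm_num)
    have h6 : Real.cos t ^ 2 < (1 / 2) ^ 2 := by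
      rw [← sq_abs]
      exact pow_lt_pow_left₀ h1 (abs_nonneg _) (by norm_num)
    norm_num at h5 h6
    linarith
  refine ⟨m, hm1, hm2, ?_⟩
  have hsplit : H B v m x = G B v m n x + ∑' i, (if i = n then 0 else G B v m i x) :=
    (summable_G B hv m x).tsum_eq_add_tsum_ite n
  -- upper bound of the remainder
  set u : ℕ → ℝ := fun i => ((if i < n then A B i * (L B i) ^ (2 * n + 2) else 0)
    + (1 / 2) ^ (i + 2)) * M with hu
  have hu1 : HasSum (fun i : ℕ => (if i < n then A B i * (L B i) ^ (2 * n + 2) else 0)) (P B n) := by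
    have h1 : P B n = ∑ i ∈ Finset.range n, (if i < n then A B i * (L B i) ^ (2 * n + 2) else 0) := by
      refine Finset.sum_congr rfl fun i hi => ?_
      rw [if_pos (Finset.mem_range.1 hi)]
    rw [h1]
    refine hasSum_sum_of_ne_finset_zero fun i hi => ?_
    rw [if_neg (fun h => hi (Finset.mem_range.2 h))]
  have hu2 : HasSum u ((P B n + 1 / 2) * M) := by
    have h2 : HasSum (fun i : ℕ => (1 / 2 : ℝ) ^ (i + 2)) (1 / 2) := by
      have := summable_half.hasSum
      rwa [tsum_half] at this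
    exact (hu1.add h2).mul_right M
  have hrem : ‖∑' i, (if i = n then 0 else G B v m i x)‖ ≤ (P B n + 1 / 2) * M := by
    refine tsum_of_norm_bounded hu2 fun i => ?_
    by_cases hi : i = n
    · rw [if_pos hi, norm_zero]
      have h0 : 0 ≤ (if i < n then A B i * (L B i) ^ (2 * n + 2) else 0) := by
        split_ifs
        · have := A_pos B i
          have := one_le_L B i
          positivity
        · exact le_rfl
      positivity
    · rw [if_neg hi]
      refine (norm_G_le B hv m i x).trans ?_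
      refine mul_le_mul_of_nonneg_right ?_ hM
      have hAi := A_pos B i
      have hLi := one_le_L B i
      rcases lt_or_gt_of_ne hi with h | h
      · rw [if_pos h]
        have h7 : A B i * (L B i) ^ m ≤ A B i * (L B i) ^ (2 * n + 2) :=
          mul_le_mul_of_nonneg_left (pow_le_pow_right₀ hLi hm2) hAi.le
        have h8 : (0 : ℝ) ≤ (1 / 2) ^ (i + 2) := by positivity
        linarith
      · rw [if_neg (by omega), zero_add]
        exact A_mul_le B (by omega)
  -- lower bound of the main term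
  have hmain : ‖v n‖ / 2 * (((n : ℝ) + 1) * (P B n + 1 + |B n|)) ≤ ‖G B v m n x‖ := by
    have hA := A_pos B n
    have hL := one_le_L B n
    unfold G
    rw [norm_smul, Real.norm_eq_abs, abs_mul,
      abs_of_nonneg (show 0 ≤ A B n * (L B n) ^ m by positivity)]
    have h9 := A_mul_ge B hm1
    have h10 : ((n : ℝ) + 1) * (P B n + 1 + |B n|) * (1 / 2)
        ≤ A B n * (L B n) ^ m * |Real.cos (L B n * x + m * (Real.pi / 2))| := by
      have := P_nonneg B n
      exact mul_le_mul h9 hcos (by norm_num) (by positivity)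
    have := mul_le_mul_of_nonneg_right h10 (norm_nonneg (v n))
    linarith
  have htri : ‖G B v m n x‖ ≤ ‖H B v m x‖ + ‖∑' i, (if i = n then 0 else G B v m i x)‖ := by
    have : G B v m n x = H B v m x - ∑' i, (if i = n then 0 else G B v m i x) := by
      rw [hsplit]; abel
    rw [this]
    exact norm_sub_le _ _
  have hP := P_nonneg B n
  nlinarith

end series

end Pool.Agent.V1197.PS
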